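import Pool.Agent.LPR.Stmts

/-!
# LPR, row REQ, with proof (helper9)
-/

set_option autoImplicit false

open Set Topology
open scoped BigOperators

namespace Pool.Agent.LPR.H9

open Pool.Agent.LSG Pool.Agent.LPR

theorem pt_of_mem (t : ℝ) (h0 : 0 ≤ t) (h1 : t ≤ 1) : ((pt t : unitInterval) : ℝ) = t := by
  unfold pt
  rw [Set.projIcc_of_mem zero_le_one (show t ∈ Set.Icc (0 : ℝ) 1 from ⟨h0, h1⟩)]

theorem pt_coe (t : unitInterval) : pt (t : ℝ) = t := by
  unfold pt
  exact Set.projIcc_val zero_le_one t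

theorem sg_bds (m k : ℕ) (hk : k < 2 ^ (m + 4)) :
    0 < sg m k ∧ sg m k + (1 / 2 : ℝ) ^ (m + 12) ≤ 1 := by
  have h5 : (0 : ℝ) < 2 ^ (m + 5) := by positivity
  unfold sg
  refine ⟨by positivity, ?_⟩
  have h1 : (2 * (k : ℝ) + 1) ≤ 2 ^ (m + 5) - 1 := by
    have h2 : (k : ℝ) + 1 ≤ 2 ^ (m + 4) := by exact_mod_cast hk
    have h3 : (2 : ℝ) ^ (m + 5) = 2 * 2 ^ (m + 4) := by ring
    rw [h3]
    linarith
  have h2 : (1 / 2 : ℝ) ^ (m + 12) ≤ 1 / 2 ^ (m + 5) := by
    rw [one_div_pow]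
    apply one_div_le_one_div_of_le h5
    exact pow_le_pow_right₀ (by norm_num) (by omega)
  have h3 : (2 * (k : ℝ) + 1) / 2 ^ (m + 5) ≤ 1 - 1 / 2 ^ (m + 5) := by
    rw [div_le_iff₀ h5, sub_mul, one_div_mul_cancel h5.ne', one_mul]
    exact h1
  linarith

theorem req (hRe1 : Re1Stmt) : ReqStmt := by
  intro S _ O ρ χ a b w hP hS F hF x n
  obtain ⟨r1, r2, -⟩ := hRe1 S O ρ χ a b w hP hS
  obtain ⟨s, t⟩ := x
  have hterm : ∀ α : ℕ × ℕ, χ α.1 α.2 (s, t) *
      (imap a b w χ F (s, pt (a α.1 α.2 n + (t : ℝ) * (b α.1 α.2 n - a α.1 α.2 n))) -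
        imap a b w χ F (s, pt (sg α.1 α.2))) =
      (χ α.1 α.2 (s, t)) ^ 2 * F ((s, t), (n : OnePoint ℕ)) := by
    rintro ⟨m, k⟩
    by_cases hx : χ m k (s, t) = 0
    · simp [hx]
    change χ m k (s, t) * (imap a b w χ F (s, pt (a m k n + (t : ℝ) * (b m k n - a m k n))) -
        imap a b w χ F (s, pt (sg m k))) = (χ m k (s, t)) ^ 2 * F ((s, t), (n : OnePoint ℕ))
    have hk := (hP.supp m k (s, t) hx).1
    obtain ⟨g0, g1⟩ := sg_bds m k hk
    obtain ⟨o1, o2⟩ := hS.ord m k n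
    have o3 := hS.bd m k n
    have hn : (1 / 2 : ℝ) ^ (m + 12) / (n + 1) ≤ (1 / 2 : ℝ) ^ (m + 12) := by
      apply div_le_self (by positivity)
      have : (0 : ℝ) ≤ n := Nat.cast_nonneg n
      linarith
    have hp : (0 : ℝ) < (1 / 2 : ℝ) ^ (m + 12) := by positivity
    have t0 : (0 : ℝ) ≤ t := t.2.1
    have t1 : (t : ℝ) ≤ 1 := t.2.2
    -- the value at the centre is zero
    have hc : ((pt (sg m k) : unitInterval) : ℝ) = sg m k := pt_of_mem _ g0.le (by linarith)
    have z : imap a b w χ F (s, pt (sg m k)) = 0 := by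
      unfold imap
      apply finsum_eq_zero_of_forall_eq_zero
      rintro ⟨m', k', n'⟩
      by_contra hne
      have hw : w m' k' n' ((pt (sg m k) : unitInterval) : ℝ) ≠ 0 := left_ne_zero_of_mul hne
      have hχ := left_ne_zero_of_mul (right_ne_zero_of_mul hne)
      rw [hc] at hw
      exact r2 s t _ m k m' k' n' hx hw hχ
    -- the value in the slot
    set q : ℝ := a m k n + (t : ℝ) * (b m k n - a m k n) with hq
    have hba : 0 < b m k n - a m k n := by linarith
    have qa : a m k n ≤ q := by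
      rw [hq]
      nlinarith [mul_nonneg t0 hba.le]
    have qb : q ≤ b m k n := by
      rw [hq]
      nlinarith [mul_le_mul_of_nonneg_right t1 hba.le]
    have hq' : ((pt q : unitInterval) : ℝ) = q := pt_of_mem q (by linarith) (by linarith)
    have hw1 : w m k n q = 1 := hS.one m k n q qa qb
    have hpt : pt ((q - a m k n) / (b m k n - a m k n)) = t := by
      have e : (q - a m k n) / (b m k n - a m k n) = (t : ℝ) := by
        rw [hq, add_sub_cancel_left, mul_div_assoc, div_self hba.ne', mul_one]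
      rw [e]
      exact pt_coe t
    have v : imap a b w χ F (s, pt q) = χ m k (s, t) * F ((s, t), (n : OnePoint ℕ)) := by
      unfold imap
      rw [finsum_eq_single _ ((m, k, n) : ℕ × ℕ × ℕ)]
      · change w m k n ((pt q : unitInterval) : ℝ) *
          (χ m k (s, pt ((((pt q : unitInterval) : ℝ) - a m k n) / (b m k n - a m k n))) *
            F ((s, pt ((((pt q : unitInterval) : ℝ) - a m k n) / (b m k n - a m k n))),
              (n : OnePoint ℕ))) = _
        rw [hq', hw1, hpt, one_mul]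
      · rintro ⟨m', k', n'⟩ hne'
        by_contra hne
        have hw : w m' k' n' ((pt q : unitInterval) : ℝ) ≠ 0 := left_ne_zero_of_mul hne
        have hχ := left_ne_zero_of_mul (right_ne_zero_of_mul hne)
        have hw2 : w m k n ((pt q : unitInterval) : ℝ) ≠ 0 := by
          rw [hq', hw1]
          exact one_ne_zero
        obtain ⟨e1, e2, e3⟩ := r1 s (pt q) t _ m k n m' k' n' hw2 hx hw hχ
        exact hne' (by rw [e1, e2, e3])
    rw [z, v]
    ring
  have hsum : pmap a b χ (imap a b w χ F) n (s, t) =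
      ∑ᶠ α : ℕ × ℕ, (χ α.1 α.2 (s, t)) ^ 2 * F ((s, t), (n : OnePoint ℕ)) :=
    finsum_congr hterm
  rw [hsum]
  by_cases hO : (s, t) ∈ O
  · obtain ⟨T, -, hT, hT1⟩ := hP.cover (s, t) hO
    rw [finsum_eq_sum_of_support_subset (s := T)]
    · rw [← Finset.sum_mul, hT1, one_mul]
    · intro α hα
      have h1 : (χ α.1 α.2 (s, t)) ^ 2 ≠ 0 := left_ne_zero_of_mul hα
      exact hT α.1 α.2 (fun h0 => h1 (by rw [h0]; ring))
  · have hF0 : F ((s, t), (n : OnePoint ℕ)) = 0 := hF.2.1 (s, t) hO n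
    rw [hF0]
    simp

end Pool.Agent.LPR.H9
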