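import Pool.Agent.LPR.Stmts

/-!
# LPR, row FLO, with proof (helper9)
-/

set_option autoImplicit false

open Set Topology
open scoped BigOperators

namespace Pool.Agent.LPR.H9

open Pool.Agent.LSG Pool.Agent.LPR

/-- the increment of the mean along the flow -/
theorem slope {X : Type} (φ : ℝ → X → X) (hadd : ∀ s t x, φ (s + t) x = φ s (φ t x))
    (f : X → ℝ) (τ : ℝ) (x : X) (hg : Continuous fun u : ℝ => f (φ u x)) (t : ℝ) :
    (∫ u in (0 : ℝ)..τ, f (φ u (φ t x))) - (∫ u in (0 : ℝ)..τ, f (φ u x)) =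
      ∫ u in (0 : ℝ)..t, (f (φ (u + τ) x) - f (φ u x)) := by
  set g : ℝ → ℝ := fun u => f (φ u x) with hgdef
  have hi : ∀ a b : ℝ, IntervalIntegrable g MeasureTheory.volume a b := fun a b =>
    hg.intervalIntegrable a b
  have e1 : (∫ u in (0 : ℝ)..τ, f (φ u (φ t x))) = ∫ u in (0 + t)..(τ + t), g u := by
    rw [← intervalIntegral.integral_comp_add_right]
    apply intervalIntegral.integral_congr
    intro u _
    change f (φ u (φ t x)) = f (φ (u + t) x)
    rw [hadd]
  have e2 := intervalIntegral.integral_interval_sub_interval_comm' (hi (0 + t) (τ + t))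
    (hi 0 τ) (hi (0 + t) 0)
  have e3 : (∫ u in (0 : ℝ)..t, g (u + τ)) = ∫ u in (0 + τ)..(t + τ), g u :=
    intervalIntegral.integral_comp_add_right _ _
  have hg' : Continuous fun u : ℝ => g (u + τ) := hg.comp (continuous_id.add continuous_const)
  have e4 : (∫ u in (0 : ℝ)..t, (g (u + τ) - g u)) =
      (∫ u in (0 : ℝ)..t, g (u + τ)) - ∫ u in (0 : ℝ)..t, g u :=
    intervalIntegral.integral_sub (hg'.intervalIntegrable _ _) (hi _ _)
  change _ = ∫ u in (0 : ℝ)..t, (g (u + τ) - g u)
  rw [e1, e4, e3]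
  rw [zero_add] at e2 ⊢
  rw [zero_add, e2, add_comm t τ]

theorem flo : FloStmt := by
  intro X _ _ φ hφ h0 hadd p hp
  letI := TopologicalSpace.metrizableSpaceMetric X
  obtain ⟨τ, hτ, hτp⟩ : ∃ τ : ℝ, 0 < τ ∧ φ τ p ≠ p := by
    obtain ⟨t, ht⟩ := hp
    rcases lt_trichotomy t 0 with h | h | h
    · refine ⟨-t, by linarith, fun he => ht ?_⟩
      have e1 : φ t (φ (-t) p) = p := by rw [← hadd, add_neg_cancel, h0]
      rw [he] at e1
      exact e1
    · exact absurd (by rw [h, h0]) ht
    · exact ⟨t, h, ht⟩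
  have hinv : ∀ t x, φ t (φ (-t) x) = x := fun t x => by rw [← hadd, add_neg_cancel, h0]
  have hinv' : ∀ t x, φ (-t) (φ t x) = x := fun t x => by rw [← hadd, neg_add_cancel, h0]
  have hd0 : 0 < dist (φ τ p) p := dist_pos.mpr hτp
  set f : X → ℝ := fun x => dist x p / dist (φ τ p) p with hf
  have hfc : Continuous f := (continuous_id.dist continuous_const).div_const _
  have hfp : f p = 0 := by simp [hf]
  have hfq : f (φ τ p) = 1 := div_self hd0.ne'
  set F : X → ℝ := fun x => ∫ u in (0 : ℝ)..τ, f (φ u x) with hFdef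
  have hFc : Continuous F :=
    intervalIntegral.continuous_parametric_intervalIntegral_of_continuous'
      (f := fun x u => f (φ u x)) (hfc.comp (hφ.comp (continuous_snd.prodMk continuous_fst))) 0 τ
  have hgc : ∀ x, Continuous fun u : ℝ => f (φ u x) := fun x =>
    hfc.comp (hφ.comp (continuous_id.prodMk continuous_const))
  have hDc : Continuous fun q : ℝ × X => f (φ (q.1 + τ) q.2) - f (φ q.1 q.2) := by
    apply Continuous.sub
    · exact hfc.comp (hφ.comp ((continuous_fst.add continuous_const).prodMk continuous_snd))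
    · exact hfc.comp hφ
  -- the neighbourhood where the slope is at least one half
  have hD1 : {q : ℝ × X | 1 / 2 < f (φ (q.1 + τ) q.2) - f (φ q.1 q.2)} ∈ 𝓝 ((0 : ℝ), p) := by
    refine (isOpen_lt continuous_const hDc).mem_nhds ?_
    change 1 / 2 < f (φ (0 + τ) p) - f (φ 0 p)
    rw [zero_add, h0, hfp, hfq]
    norm_num
  obtain ⟨U, hU, W, hW, hUW⟩ := mem_nhds_prod_iff.mp hD1
  obtain ⟨r, hr, hrU⟩ := Metric.mem_nhds_iff.mp hU
  have hD2 : {q : ℝ × X | φ q.1 q.2 ∈ W} ∈ 𝓝 ((0 : ℝ), p) := by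
    have h1 : Filter.Tendsto (fun q : ℝ × X => φ q.1 q.2) (𝓝 ((0 : ℝ), p)) (𝓝 p) := by
      have h2 := hφ.tendsto ((0 : ℝ), p)
      simp only [h0] at h2
      exact h2
    exact h1 hW
  obtain ⟨U', hU', W', hW', hUW'⟩ := mem_nhds_prod_iff.mp hD2
  obtain ⟨r', hr', hrU'⟩ := Metric.mem_nhds_iff.mp hU'
  have hDW : ∀ u : ℝ, |u| < r → ∀ x ∈ W, 1 / 2 < f (φ (u + τ) x) - f (φ u x) := by
    intro u hu x hx
    have h1 : (u, x) ∈ U ×ˢ W := ⟨hrU (by
      rw [Metric.mem_ball, Real.dist_eq, sub_zero]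
      exact hu), hx⟩
    exact hUW h1
  have hWW : ∀ u : ℝ, |u| < r' → ∀ x ∈ W', φ u x ∈ W := by
    intro u hu x hx
    have h1 : (u, x) ∈ U' ×ˢ W' := ⟨hrU' (by
      rw [Metric.mem_ball, Real.dist_eq, sub_zero]
      exact hu), hx⟩
    exact hUW' h1
  have hinc : ∀ x t, F (φ t x) - F x = ∫ u in (0 : ℝ)..t, (f (φ (u + τ) x) - f (φ u x)) :=
    fun x t => slope φ hadd f τ x (hgc x) t
  have hDx : ∀ x, Continuous fun u : ℝ => f (φ (u + τ) x) - f (φ u x) := fun x =>
    hDc.comp (continuous_id.prodMk continuous_const)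
  -- slopes
  have hpos : ∀ x ∈ W, ∀ t : ℝ, 0 ≤ t → t < r → t / 2 ≤ F (φ t x) - F x := by
    intro x hx t ht htr
    rw [hinc]
    have h1 : (∫ _u in (0 : ℝ)..t, (1 / 2 : ℝ)) ≤
        ∫ u in (0 : ℝ)..t, (f (φ (u + τ) x) - f (φ u x)) := by
      apply intervalIntegral.integral_mono_on ht intervalIntegrable_const
        ((hDx x).intervalIntegrable _ _)
      intro u hu
      exact (hDW u (by rw [abs_of_nonneg hu.1]; exact lt_of_le_of_lt hu.2 htr) x hx).le
    rw [intervalIntegral.integral_const, smul_eq_mul] at h1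
    linarith
  have hneg : ∀ x ∈ W, ∀ t : ℝ, t ≤ 0 → -r < t → F (φ t x) - F x ≤ t / 2 := by
    intro x hx t ht htr
    rw [hinc, intervalIntegral.integral_symm]
    have h1 : (∫ _u in t..(0 : ℝ), (1 / 2 : ℝ)) ≤
        ∫ u in t..(0 : ℝ), (f (φ (u + τ) x) - f (φ u x)) := by
      apply intervalIntegral.integral_mono_on ht intervalIntegrable_const
        ((hDx x).intervalIntegrable _ _)
      intro u hu
      exact (hDW u (by rw [abs_of_nonpos hu.2]; linarith [hu.1]) x hx).le
    rw [intervalIntegral.integral_const, smul_eq_mul] at h1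
    linarith
  obtain ⟨δ, hδ, hδr, hδr'⟩ : ∃ δ : ℝ, 0 < δ ∧ 2 * δ < r ∧ δ < r' := by
    refine ⟨min r r' / 3, by positivity, ?_, ?_⟩
    · have := min_le_left r r'
      linarith
    · have := min_le_right r r'
      have h2 : 0 < min r r' := lt_min hr hr'
      linarith
  set S : Set X := {x | x ∈ W ∧ F x = F p} with hS
  set N : Set X := {y | ∃ t : ℝ, |t| ≤ δ ∧ φ (-t) y ∈ S} with hN
  have key : ∀ (y : X) (t t' : ℝ), |t| ≤ δ → |t'| ≤ δ → φ (-t') y ∈ S →
      |t' - t| ≤ 2 * |F (φ (-t) y) - F p| := by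
    intro y t t' ht ht' hy
    have e1 : φ (t' - t) (φ (-t') y) = φ (-t) y := by
      rw [← hadd]
      congr 1
      ring
    have h3 : |t' - t| ≤ 2 * δ := by
      calc |t' - t| ≤ |t'| + |t| := abs_sub _ _
        _ ≤ 2 * δ := by linarith
    rw [← e1, ← hy.2]
    rcases le_total 0 (t' - t) with h | h
    · have h4 := hpos _ hy.1 (t' - t) h (by
        rw [abs_of_nonneg h] at h3
        linarith)
      rw [abs_of_nonneg h]
      have h5 := le_abs_self (F (φ (t' - t) (φ (-t') y)) - F (φ (-t') y))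
      linarith
    · have h4 := hneg _ hy.1 (t' - t) h (by
        rw [abs_of_nonpos h] at h3
        linarith)
      rw [abs_of_nonpos h]
      have h5 := neg_abs_le (F (φ (t' - t) (φ (-t') y)) - F (φ (-t') y))
      linarith
  choose T hT1 hT2 using fun y : N => y.2
  have hTc : Continuous T := by
    rw [continuous_iff_continuousAt]
    intro y
    have hc : Continuous fun y' : N => 2 * |F (φ (-T y) y'.1) - F p| := by
      apply Continuous.mul continuous_const
      apply Continuous.abs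
      apply Continuous.sub _ continuous_const
      exact hFc.comp (hφ.comp (continuous_const.prodMk continuous_subtype_val))
    have hl : Filter.Tendsto (fun y' : N => 2 * |F (φ (-T y) y'.1) - F p|) (𝓝 y) (𝓝 0) := by
      have h1 := hc.tendsto y
      rw [(hT2 y).2, sub_self, abs_zero, mul_zero] at h1
      exact h1
    rw [ContinuousAt, tendsto_iff_dist_tendsto_zero]
    refine squeeze_zero (fun _ => dist_nonneg) (fun y' => ?_) hl
    rw [Real.dist_eq]
    exact key y'.1 (T y) (T y') (hT1 y) (hT1 y') (hT2 y')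
  have hNn : N ∈ 𝓝 p := by
    have h1 : {y | |F y - F p| < δ / 2} ∈ 𝓝 p := by
      have hc : Continuous fun y => |F y - F p| := (hFc.sub continuous_const).abs
      refine (isOpen_lt hc continuous_const).mem_nhds ?_
      change |F p - F p| < δ / 2
      rw [sub_self, abs_zero]
      linarith
    filter_upwards [h1, hW'] with y hy1 hy2
    have hyW : y ∈ W := by
      have := hWW 0 (by rw [abs_zero]; exact hr') y hy2
      rwa [h0] at this
    have hp1 := hpos y hyW δ hδ.le (by linarith)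
    have hn1 := hneg y hyW (-δ) (by linarith) (by linarith)
    obtain ⟨a1, a2⟩ := abs_lt.mp hy1
    have hcy : ContinuousOn (fun t : ℝ => F (φ t y)) (Set.Icc (-δ) δ) :=
      (hFc.comp (hφ.comp (continuous_id.prodMk continuous_const))).continuousOn
    have hivt := intermediate_value_Icc (by linarith : -δ ≤ δ) hcy
    obtain ⟨t, ht, hFt⟩ := hivt (show F p ∈ Set.Icc (F (φ (-δ) y)) (F (φ δ y)) from
      ⟨by linarith, by linarith⟩)
    have hta : |t| ≤ δ := abs_le.mpr ht
    refine ⟨-t, by rw [abs_neg]; exact hta, ?_⟩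
    rw [neg_neg]
    exact ⟨hWW t (lt_of_le_of_lt hta hδr') y hy2, hFt⟩
  refine ⟨N, hNn, S, ⟨?_⟩⟩
  have e : ↥N ≃ₜ ↥S × ↥(Set.Icc (-δ) δ) :=
    { toFun := fun y => (⟨φ (-T y) y.1, hT2 y⟩, ⟨T y, abs_le.mp (hT1 y)⟩)
      invFun := fun q => ⟨φ q.2.1 q.1.1, ⟨q.2.1, abs_le.mpr q.2.2, by
        rw [hinv']
        exact q.1.2⟩⟩
      left_inv := fun y => by
        apply Subtype.ext
        exact hinv _ _
      right_inv := fun q => by
        have hm : φ q.2.1 q.1.1 ∈ N := ⟨q.2.1, abs_le.mpr q.2.2, by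
          rw [hinv']
          exact q.1.2⟩
        have hT : T ⟨φ q.2.1 q.1.1, hm⟩ = q.2.1 := by
          have h1 := key (φ q.2.1 q.1.1) q.2.1 (T ⟨φ q.2.1 q.1.1, hm⟩) (abs_le.mpr q.2.2)
            (hT1 ⟨φ q.2.1 q.1.1, hm⟩) (hT2 ⟨φ q.2.1 q.1.1, hm⟩)
          rw [hinv', q.1.2.2, sub_self, abs_zero, mul_zero] at h1
          have h2 := abs_nonpos_iff.mp h1
          linarith
        apply Prod.ext
        · apply Subtype.ext
          change φ (-T ⟨φ q.2.1 q.1.1, hm⟩) (φ q.2.1 q.1.1) = q.1.1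
          rw [hT, hinv']
        · apply Subtype.ext
          exact hT
      continuous_toFun := by
        apply Continuous.prodMk
        · apply Continuous.subtype_mk
          exact hφ.comp (hTc.neg.prodMk continuous_subtype_val)
        · exact hTc.subtype_mk _
      continuous_invFun := by
        apply Continuous.subtype_mk
        exact hφ.comp ((continuous_subtype_val.comp continuous_snd).prodMk
          (continuous_subtype_val.comp continuous_fst)) }
  exact e.trans ((Homeomorph.refl _).prodCongr (iccHomeoI (-δ) δ (by linarith)))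

end Pool.Agent.LPR.H9
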